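import Mathlib
import Pool.Agent.Y271.RO.Stm
import Pool.Agent.Helper366.IV.CP

/-!
# POM: the formula of Cauchy and Pompeiu and elementary rules for `db`
-/

set_option autoImplicit false

namespace Pool.Agent.Y839.RO

open MeasureTheory Set Metric Filter Topology
open scoped InnerProductSpace ENNReal NNReal ComplexConjugate ContDiff
open Pool.Agent.Y271.RO

theorem pom (χ : ℂ → ℂ) (h : ContDiff ℝ 1 χ) (hc : HasCompactSupport χ) (l : ℂ) :
    ht (db χ) l = -(Real.pi * χ l) := by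
  have h1 := Pool.Agent.Helper366.IV.cauchy_pompeiu χ h hc l
  unfold ht
  rw [← integral_sub_left_eq_self (fun w => db χ w * (w - l)⁻¹) _ l]
  rw [← h1, ← integral_neg]
  congr 1
  funext w
  unfold db
  rw [sub_sub_cancel_left, inv_neg, div_eq_mul_inv _ w]
  ring

theorem db_mul {F G : ℂ → ℂ} {z : ℂ} (h1 : DifferentiableAt ℝ F z) (h2 : DifferentiableAt ℝ G z) :
    db (fun w => F w * G w) z = db F z * G z + F z * db G z := by
  simp only [db]
  rw [fderiv_fun_mul h1 h2]
  simp only [ContinuousLinearMap.add_apply, ContinuousLinearMap.smul_apply, smul_eq_mul]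
  ring

theorem db_holo {F : ℂ → ℂ} {z : ℂ} (h : DifferentiableAt ℂ F z) : db F z = 0 := by
  have h1 : fderiv ℝ F z = (fderiv ℂ F z).restrictScalars ℝ :=
    (h.hasFDerivAt.restrictScalars ℝ).fderiv
  simp only [db, h1, ContinuousLinearMap.coe_restrictScalars']
  have h2 : fderiv ℂ F z Complex.I = Complex.I * fderiv ℂ F z 1 := by
    have := (fderiv ℂ F z).map_smul Complex.I 1
    simpa [smul_eq_mul] using this
  rw [h2, ← mul_assoc, Complex.I_mul_I]
  ring

theorem db_smooth {F : ℂ → ℂ} (h : ContDiff ℝ ∞ F) : ContDiff ℝ ∞ (db F) := by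
  have h1 : ContDiff ℝ ∞ (fderiv ℝ F) := h.fderiv_right (by simp)
  unfold db
  fun_prop

theorem db_cont {F : ℂ → ℂ} (h : ContDiff ℝ 1 F) : Continuous (db F) := by
  have h := h.continuous_fderiv (by simp)
  unfold db
  fun_prop

theorem db_norm_le (F : ℂ → ℂ) (z : ℂ) : ‖db F z‖ ≤ ‖fderiv ℝ F z‖ := by
  unfold db
  rw [norm_div]
  have h1 : ‖fderiv ℝ F z 1‖ ≤ ‖fderiv ℝ F z‖ := by
    simpa using (fderiv ℝ F z).le_opNorm 1
  have h2 : ‖Complex.I * fderiv ℝ F z Complex.I‖ ≤ ‖fderiv ℝ F z‖ := by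
    rw [norm_mul, Complex.norm_I, one_mul]
    simpa using (fderiv ℝ F z).le_opNorm Complex.I
  have h3 := norm_add_le (fderiv ℝ F z 1) (Complex.I * fderiv ℝ F z Complex.I)
  have h4 : ‖(2 : ℂ)‖ = 2 := by simp
  rw [h4]
  linarith

theorem db_supp {F : ℂ → ℂ} {z : ℂ} (h : z ∉ tsupport F) : db F z = 0 := by
  have h1 : fderiv ℝ F z = 0 := by
    by_contra h2
    exact h (support_fderiv_subset ℝ h2)
  simp [db, h1]

theorem main : S_POM :=
  ⟨fun χ h hc l => pom χ h hc l, fun _ _ _ h1 h2 => db_mul h1 h2, fun _ _ h => db_holo h,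
    fun _ h => db_smooth h, fun _ h => db_cont h, db_norm_le, fun _ _ h => db_supp h⟩

end Pool.Agent.Y839.RO
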